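import Pool.Agent.Helper614.PB2

open Set Filter Topology TopologicalSpace

namespace Pool.Agent.Results.MP_9e6edb_gt.NotLocallyCompact

/-- `𝓑` is a pretty base of the space `X`: a base of clopen sets such that whenever countably many
members (the family `𝒞`) are each disjoint from each member of an arbitrary subfamily `𝒟`, some
member `W` contains all members of `𝒞` and misses all members of `𝒟`. -/
structure IsPrettyBase {X : Type*} [TopologicalSpace X] (𝓑 : Set (Set X)) : Prop where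
  isBasis : IsTopologicalBasis 𝓑
  isClopen : ∀ U ∈ 𝓑, IsClopen U
  nested : ∀ 𝒞 ⊆ 𝓑, ∀ 𝒟 ⊆ 𝓑, 𝒞.Countable → (∀ U ∈ 𝒞, ∀ V ∈ 𝒟, Disjoint U V) →
    ∃ W ∈ 𝓑, (∀ U ∈ 𝒞, U ⊆ W) ∧ ∀ V ∈ 𝒟, Disjoint W V

/-- The cotopology of a base `𝓑`: generated by the complements of the closures of its members. -/
abbrev cotopology {X : Type*} [TopologicalSpace X] (𝓑 : Set (Set X)) : TopologicalSpace X :=
  generateFrom {V | ∃ B ∈ 𝓑, V = (closure B)ᶜ}

/-- `X` has a cocompact pretty base: a pretty base whose cotopology is compact. -/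
def HasCocompactPrettyBase (X : Type*) [TopologicalSpace X] : Prop :=
  ∃ 𝓑 : Set (Set X), IsPrettyBase 𝓑 ∧ @CompactSpace X (cotopology 𝓑)

/-- Basically disconnected: zero-dimensional Hausdorff, and the closure of the union of countably
many clopen sets is clopen. -/
def IsBasicallyDisconnected (X : Type*) [TopologicalSpace X] : Prop :=
  T2Space X ∧ IsTopologicalBasis {U : Set X | IsClopen U} ∧
    ∀ 𝒞 : Set (Set X), 𝒞.Countable → (∀ U ∈ 𝒞, IsClopen U) → IsClopen (closure (⋃₀ 𝒞))

open Pool.Agent.Helper614.PB in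
/-- There is a basically disconnected Tychonoff space with a cocompact pretty base that has a point
without compact neighbourhoods. -/
theorem result : ∃ (X : Type) (_ : TopologicalSpace X), T35Space X ∧ IsBasicallyDisconnected X ∧
    HasCocompactPrettyBase X ∧ ∃ x : X, ∀ K : Set X, IsCompact K → K ∉ 𝓝 x := by
  refine ⟨X1, inferInstance, t35 good1, ⟨t2 good1, ?_, fun 𝒞 hc h => X1_closure 𝒞 hc h⟩, ?_,
    ix u1 (), fun K hK => X1_not_locally_compact K hK⟩
  · refine isTopologicalBasis_of_isOpen_of_nhds (fun U hU => hU.2) ?_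
    intro x U hx hU
    obtain ⟨V, ⟨E, hE, rfl⟩, hxV, hVU⟩ :=
      (isBasis_lat good1).exists_subset_of_mem_open hx hU
    exact ⟨_, isClopen_hat good1 hE, hxV, hVU⟩
  · refine ⟨hat u1 '' Lat u1 (fun _ => Set.univ), ⟨isBasis_lat good1, ?_, ?_⟩, cocompact good1⟩
    · rintro _ ⟨E, hE, rfl⟩; exact isClopen_hat good1 hE
    · intro 𝒞 h𝒞 𝒟 h𝒟 hc hd
      exact nested good1 𝒞 𝒟 h𝒞 h𝒟 hc hd

end Pool.Agent.Results.MP_9e6edb_gt.NotLocallyCompact
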